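import Pool.Agent.Y267.RS.Cov
import Pool.Agent.Y79.RS.A
import Pool.Agent.Y79.RS.D1
import Pool.Agent.Y779.RS.B
import Pool.Agent.Y914.RS.Roof
import Pool.Agent.Y232.RS.D2
import Pool.Agent.Y125.RS.E1
import Pool.Agent.Y925.RS.E2
import Pool.Agent.Y278.RS.TOne
import Pool.Agent.Y523.RS.T2
import Pool.Agent.Y317.RS.G1
import Pool.Agent.Y960.RS.G2

set_option autoImplicit false

/-!
# MP_1ac403_an, Q1: the homological rotation set need not be a finite union of convex sets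

On every closed orientable surface of genus at least two there is a homeomorphism isotopic to the
identity (the time-one map of a flow) whose homological rotation set is not a finite union of
convex sets.
-/

namespace Pool.Agent.Results.MP_1ac403_an.NotFiniteUnion

open Set Filter Topology

/-- The surface `h² + Re z₁ᵏ + Re z₂ = c` in `S¹ × S¹ × ℝ`.  For `1 < c < 2` and `k ≥ 1` it is the
double of the torus `S¹ × S¹` minus the `k` open discs `Re z₁ᵏ + Re z₂ > c`, that is the closed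
orientable surface of genus `k + 1`. -/
def Surf (c : ℝ) (k : ℕ) : Set (Circle × Circle × ℝ) :=
  {p | p.2.2 ^ 2 + ((p.1 ^ k : Circle) : ℂ).re + (p.2.1 : ℂ).re = c}

/-- `δ` is the displacement of the circle-valued map `φ` along the path `Iⁿ(x)` of the isotopy
`F t`, `0 ≤ t ≤ 1`, from the identity to `f = F 1` (the concatenation of the paths
`t ↦ F t (fʲ x)`, `j < n`): the increment of a continuous real lift of `φ` along this path. -/
def IsDisplacement {S : Type} [TopologicalSpace S] (F : ℝ → S → S) (φ : C(S, AddCircle (1 : ℝ)))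
    (x : S) (n : ℕ) (δ : ℝ) : Prop :=
  ∃ g : ℝ → ℝ, ContinuousOn g (Icc 0 (n : ℝ)) ∧
    (∀ j : ℕ, j < n → ∀ s ∈ Icc (0 : ℝ) 1,
      ((g (j + s) : ℝ) : AddCircle (1 : ℝ)) = φ (F s ((F 1)^[j] x))) ∧
    g n - g 0 = δ

/-- The homological rotation set, an element `v` of `H₁(S;ℝ) = Hom([S,S¹],ℝ)` being given by its
values `v φ` on the maps `φ : S → S¹`: all limits of `(displacement along I^{n_k}(x_k)) / n_k`
with `n_k → ∞`. -/
def RotationSet {S : Type} [TopologicalSpace S] (F : ℝ → S → S) :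
    Set (C(S, AddCircle (1 : ℝ)) → ℝ) :=
  {v | ∃ (x : ℕ → S) (n : ℕ → ℕ) (δ : C(S, AddCircle (1 : ℝ)) → ℕ → ℝ), Tendsto n atTop atTop ∧
    (∀ φ k, IsDisplacement F φ (x k) (n k) (δ φ k)) ∧
    ∀ φ, Tendsto (fun k => δ φ k / n k) atTop (𝓝 (v φ))}

open Pool.Agent.Y267.RS in
theorem result : ∃ c : ℝ, 1 < c ∧ c < 2 ∧ ∀ k : ℕ, 1 ≤ k →
    ∃ F : ℝ → Surf c k → Surf c k,
      ContinuousOn (fun p : ℝ × Surf c k => F p.1 p.2) (Icc 0 1 ×ˢ univ) ∧
      (∀ x, F 0 x = x) ∧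
      (∀ t ∈ Icc (0 : ℝ) 1, IsHomeomorph (F t)) ∧
      ¬ ∃ 𝒞 : Set (Set (C(Surf c k, AddCircle (1 : ℝ)) → ℝ)),
        𝒞.Finite ∧ (∀ A ∈ 𝒞, Convex ℝ A) ∧ RotationSet F = ⋃₀ 𝒞 := by
  have a1 := Pool.Agent.Y79.RS.a1
  have a2 := Pool.Agent.Y79.RS.a2
  have a3 := Pool.Agent.Y79.RS.a3
  have a4 := Pool.Agent.Y79.RS.a4
  have a5 := Pool.Agent.Y79.RS.a5
  have a6 := Pool.Agent.Y79.RS.a6
  have a7 := Pool.Agent.Y79.RS.a7
  have d1 := Pool.Agent.Y79.RS.d1 a1 a2 a3 a6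
  have b1 := Pool.Agent.Y779.RS.b1 a1 a2
  have b2 := Pool.Agent.Y779.RS.b2 a1 a2
  have hc2 := c2 b1 b2
  have hc3 := c3 b1 b2
  have d2 := Pool.Agent.Y232.RS.d2 a1 a2 a3 a4 a5 a6 b2
  have e1 := Pool.Agent.Y125.RS.e1 a1 a2 a3 a4 a5 a6 a7 c1 hc2 d1
  have e2 := Pool.Agent.Y925.RS.e2 a1 a2 a3 a4 a5 a6 a7 c1 hc3 d1
  have hv := Pool.Agent.Y278.RS.vv_props a6
  refine ⟨1 + Real.cos (Real.pi * be), ?_, ?_, ?_⟩
  · have := Pool.Agent.Y447.RSK1.cos_be a6
    linarith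
  · have h1 : Real.cos (Real.pi * be) < 1 := by
      have hpi := Real.pi_pos
      have hb0 : 0 < Real.pi * be := mul_pos hpi a6.1.1
      have hb1 : Real.pi * be ≤ Real.pi := by nlinarith [a6.1.2]
      have := Real.cos_lt_cos_of_nonneg_of_le_pi le_rfl hb1 hb0
      rwa [Real.cos_zero] at this
    linarith
  · intro k hk
    exact final_all a6 c1 d2 e1 e2 (Pool.Agent.Y278.RS.t1 a6) (Pool.Agent.Y523.RS.t2 hv)
      (t3 a6 hv) Pool.Agent.Y317.RS.g1 Pool.Agent.Y960.RS.g2 k hk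

end Pool.Agent.Results.MP_1ac403_an.NotFiniteUnion
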